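import Pool.Agent.Q286.GB.Stm2
import Pool.Agent.Q120.NB.Stm

set_option autoImplicit false

/-!
# Project NL: the Nyman-Beurling problem for L-functions in all `L^p`, `1 ≤ p < ∞`

Rows `MP_77948b_nt`, `MP_873b76_nt`, `MP_553913_nt`, `MP_fb225e_nt`, `MP_7193be_nt` (very famous, generalized Riemann hypotheses).

`L(s) = ∑ λ(n) n^(-s)` entire (class `LFn`, `Obj` of `Pool/Agent/Q286/GB/Stm.lean`), `S(z) = ∑_{j ≤ z} λ(j)`.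
`D_{p,σ}(N)` = distance of the indicator of `[1,∞)` to the span of the functions `S(y/n)`, `n ≤ N`, in the norm
`(∫_1^∞ |f(y)|^p y^(-pσ-1) dy)^(1/p)`; `Θ` = supremum of the real parts of the zeros of the completed L-function.

THEOREM. For all `1 ≤ p < ∞`, `0 < σ < 1`: `D_{p,σ}(N) = N^(-max(0, σ-Θ) + o(1))`, and for `σ > Θ` the coefficients
`μ_L(n)(1 - n/N)` attain the exponent. For a zero `ρ = β + iγ`: `D ≥ c (log N)^(-(1-1/p))` if `σ = β`, `≥ c` if `σ < β`. So there is a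
zero-free half plane iff `D ≤ N^(-δ)` for one `p, σ, δ` and infinitely many `N`; RH for `L` iff the exponent is `σ - 1/2` for
one `p` and `σ > 1/2`, iff `D_{p,1/2}(N)` has the exact order `(log N)^(-(1-1/p))` for one `p` (`1 < p < ∞`), iff it tends to `0`.

For zeta this is project NB (`Pool/Agent/Q120/NB/Stm.lean`, all jobs landed). Here `CC O N a y = 1 - ∑_{n ≤ N} a_n S(y/n)`
(`Q286.GB.CC`). Tools: `Pool/Agent/Q151/GB/{Pl,Ltwo,VO}.lean` (identity `main_id`, Plancherel `l2_id`, near orthogonality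
`S_VO`), `Pool/Agent/Q298/GB/*`, `Pool/Agent/Q211/GB/*`, `Pool/Agent/Q286/GB/All.lean` (all facts).
-/

namespace Pool.Agent.Q120.NL

open Complex MeasureTheory Filter Topology Set FourierTransform
open scoped ComplexConjugate ContDiff
open Pool.Agent.Q286.BD (cl Lap Wt V)
open Pool.Agent.Q286.GB

/-- no zeros to the right of `θ` -/
def ZF (O : LFn) (θ : ℝ) : Prop := ∀ s : ℂ, θ < s.re → O.L s ≠ 0

/-- the coefficients `μ_L(n)(1 - n/N)` -/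
noncomputable def mobL (O : LFn) (N n : ℕ) : ℂ := O.mu n * (1 - (n : ℂ) / (N : ℂ))

/-- the norm of `L^p((1,∞), y^(-pσ-1) dy)` -/
noncomputable def nl (p σ : ℝ) (u : ℝ → ℂ) : ℝ := (∫ y in Ioi (1 : ℝ), ‖u y‖ ^ p * y ^ (-(p * σ) - 1)) ^ (1 / p)

/-- the Mellin transform of the error -/
noncomputable def FL (O : LFn) (N : ℕ) (a : ℕ → ℂ) (s : ℂ) : ℂ :=
  (1 - O.L s * ∑ n ∈ Finset.Icc 1 N, a n * (n : ℂ) ^ (-s)) / s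

/-- the error in the variable `v = log y`, weight `e^(-σ v)` -/
noncomputable def uS (O : LFn) (σ : ℝ) (N : ℕ) (a : ℕ → ℂ) (v : ℝ) : ℂ :=
  (Ici (0 : ℝ)).indicator (fun v => CC O N a (Real.exp v) * cexp (-(σ : ℂ) * v)) v

/-! ## the exponents -/

/-- JOB GZ (1.2 h): `L` and `1/L` are `O((1+|t|)^ε)` to the right of all zeros. `Pool/Agent/H295R2/L.lean` (`fz_bound_lt_one`)
is the case of zeta: adapt. For `Re s ≥ 2`: `L` and `1/L` are bounded (`ser`, `lam_sum`; `L s * ∑ mu n n^(-s) = 1` by `inv`; see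
`Pool/Agent/Q211/GB/Bas.lean`). Let `σ < 2` (otherwise done), centre `c = 4 + it`, `f(z) = L(c+z)`, radii
`R = 4 - (θ+σ)/2`, `R' = 4 - (θ+3σ)/4`, a logarithm `G` of `f` on the ball of radius `R` (`exists_log_ball`), `Re G ≤ A log(|t|+5)`
there (`grow 0`), `|G(0)|` bounded (choose the branch), `|G| ≤ C` on the ball of radius `2 - 1/8` (Borel-Caratheodory in the
ball of radius `2 - 1/16`, where `Re ≥ 2`), `|G| ≤ C log(|t|+5)` on the ball of radius `R'`, and the maximum principle for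
`G(z)/z^n` on the annulus, `n` large, gives `|G| ≤ C + ε log(|t|+5)` for `|z| ≤ 4 - σ`. No pole, so all `t` are treated alike. -/
def J_GZ : Prop := ∀ (O : LFn) (θ : ℝ), 0 ≤ θ → ZF O θ → ∀ σ ε : ℝ, θ < σ → 0 < ε → ∃ C : ℝ, 0 < C ∧ ∀ s : ℂ,
  σ ≤ s.re → ‖O.L s‖ ≤ C * (1 + |s.im|) ^ ε ∧ ‖(O.L s)⁻¹‖ ≤ C * (1 + |s.im|) ^ ε

/-- JOB PE (1.2 h, uses `J_GZ`): the polynomial with coefficients `μ_L(n)(1-n/N)` approximates `1/L`.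
`Pool/Agent/Q31/NB/PER.lean` is the case of zeta: adapt (`f = 1/L`; the line `Re z = 1` there becomes `Re z = 2`, so that
`Re (s+z) ≥ 2`; `-1 < -c` because `σ < θ + 1`). -/
def J_PE : Prop := ∀ (O : LFn) (θ : ℝ), 0 ≤ θ → ZF O θ → ∀ σ ε : ℝ, θ < σ → σ < θ + 1 → 0 < ε →
  ∃ C : ℝ, 0 < C ∧ ∀ (N : ℕ) (t : ℝ), 1 ≤ N →
  ‖(∑ n ∈ Finset.Icc 1 N, mobL O N n * (n : ℂ) ^ (-((σ : ℂ) + t * I))) - (O.L (σ + t * I))⁻¹‖ ≤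
    C * (N : ℝ) ^ (θ - σ + ε) * (1 + |t|) ^ ε

/-- JOB HD (1.2 h, pure analysis): Hausdorff-Young for distributions. Proof (Marcinkiewicz), as for `J_HY` of project NC
(`Pool/Agent/Q275/NC/HY.lean`, helper275). Let `q = p/(p-1) ∈ (1,2)`, `Q = ∫ |H|^q`. For `s > 0`: `H = H₁ + H₂`, `H₁ = H 1[|H| > s]`
integrable with `∫ |H₁| ≤ s^(1-q) Q`, `H₂ = H 1[|H| ≤ s] ∈ L²`. `u₁ = 𝓕 H₁` (bounded by `s^(1-q) Q`, continuous) satisfies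
`∫ g u₁ = ∫ 𝓕⁻g H₁`... (Fubini; with the sign that fits, `fourier_flip` in `Q151/GB/Ltwo.lean`), so `u₂ = u - u₁` satisfies the
hypothesis of `Q151.GB.l2_id` with `H₂`: `∫ |u₂|² = ∫_{|H| ≤ s} |H|²`. For `λ > 0` choose `s` with `s^(1-q) Q = λ/2`: `{|u| > λ}` is
contained in `{|u₂| > λ/2}`, of measure at most `4 λ^(-2) ∫_{|H| ≤ s} |H|²`, and
`∫ |u|^p = ∫_0^∞ p λ^(p-1) |{|u| > λ}| dλ ≤ C Q^(p-1)` (layer cake, Fubini). -/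
def J_HD : Prop := ∀ p : ℝ, 2 < p → ∃ C : ℝ, 0 < C ∧ ∀ H u : ℝ → ℂ, MemLp H 2 →
  Integrable (fun x : ℝ => ‖H x‖ ^ (p / (p - 1))) → LocallyIntegrable u →
  (∀ g : ℝ → ℝ, ContDiff ℝ ∞ g → HasCompactSupport g →
    ∫ x, ((g x : ℝ) : ℂ) * u x = ∫ ξ, (𝓕⁻ (fun x => ((g x : ℝ) : ℂ))) ξ * H ξ) →
  Integrable (fun x : ℝ => ‖u x‖ ^ p) ∧ ∫ x : ℝ, ‖u x‖ ^ p ≤ C * (∫ x : ℝ, ‖H x‖ ^ (p / (p - 1))) ^ (p - 1)

/-- JOB ID (0.5 h): the identity `main_id` and `loc_int` of `Pool/Agent/Q151/GB/Pl.lean` (there `σ = 1/2`; `5/2` becomes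
`σ + 2`, the shift is again from `Re z = 2` to `Re z = 0`; `FF_bd`, `FF_diff` with `σ` in place of `1/2`). -/
def J_ID : Prop := ∀ (O : LFn) (N : ℕ) (a : ℕ → ℂ) (σ : ℝ), 0 < σ → LocallyIntegrable (uS O σ N a) ∧
  ∀ g : ℝ → ℝ, ContDiff ℝ ∞ g → HasCompactSupport g →
    ∫ v, ((g v : ℝ) : ℂ) * uS O σ N a v =
      ∫ ξ : ℝ, (𝓕⁻ (fun x => ((g x : ℝ) : ℂ))) ξ * FL O N a (σ + 2 * Real.pi * ξ * I)

/-- JOB LP (0.7 h, uses `J_HD`, `J_ID`): the error in `L^p`, `p ≥ 2`. Proof: `p > 2`: `J_HD` with `H ξ = FL (σ + 2 π ξ i)`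
(continuous), `u = uS`, and the substitution `y = e^v` as at the end of `t_PL` in `Pool/Agent/Q151/GB/Pl.lean`. `p = 2`: the same
with `l2_id`. -/
def J_LP : Prop := ∀ p : ℝ, 2 ≤ p → ∃ C : ℝ, 0 < C ∧ ∀ (O : LFn) (N : ℕ) (a : ℕ → ℂ) (σ : ℝ), 0 < σ →
  Integrable (fun t : ℝ => ‖FL O N a (σ + t * I)‖ ^ (2 : ℝ)) →
  Integrable (fun t : ℝ => ‖FL O N a (σ + t * I)‖ ^ (p / (p - 1))) →
  IntegrableOn (fun y : ℝ => ‖CC O N a y‖ ^ p * y ^ (-(p * σ) - 1)) (Ioi 1) ∧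
  ∫ y in Ioi (1 : ℝ), ‖CC O N a y‖ ^ p * y ^ (-(p * σ) - 1) ≤
    C * (∫ t : ℝ, ‖FL O N a (σ + t * I)‖ ^ (p / (p - 1))) ^ (p - 1)

/-- JOB UL (1 h, uses `J_GZ`, `J_PE`, `J_LP` and `NB.J_HOL`, landed: `Pool/Agent/Q224/NB/HOL.lean`): the upper bound.
Proof. `p ≥ 2`: `1 - L A = L (1/L - A)`, `|FL(σ+it)| ≤ C N^(θ-σ+ε') (1+|t|)^(2ε'-1)`, whose `q`-th power, `q = p/(p-1) > 1`, is
integrable for small `ε'`; `J_LP` gives `∫ ≤ C (N^((θ-σ+ε')q))^(p-1) = C N^((θ-σ+ε')p)`. `1 ≤ p ≤ 2`: `J_HOL` for `u = CC` on `(1,∞)`,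
`0` elsewhere, with small `η` and the bounds for `p = 2` at `σ ± η`. -/
def J_UL : Prop := ∀ (O : LFn) (θ : ℝ), 0 ≤ θ → ZF O θ → ∀ p σ ε : ℝ, 1 ≤ p → θ < σ → σ < θ + 1 → 0 < ε →
  ∃ C : ℝ, 0 < C ∧ ∀ N : ℕ, 1 ≤ N →
  IntegrableOn (fun y : ℝ => ‖CC O N (mobL O N) y‖ ^ p * y ^ (-(p * σ) - 1)) (Ioi 1) ∧
  nl p σ (CC O N (mobL O N)) ≤ C * (N : ℝ) ^ (θ - σ + ε)

/-- JOB LO (1.5 h): the lower bound for one zero (any entire `L` of the class, no hypothesis). Proof. `S_VO` is `vo` in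
`Pool/Agent/Q286/GB/All.lean`, `Hc` the cutoff of `Q286/GB/Stm.lean`; compare `Pool/Agent/Q298/GB/{No,Co,Pair,Low}.lean` and
`Pool/Agent/Q65/NB/LB.lean`. `β = Re ρ`, `δ' > 0` small, `Y = N^(1+δ')`, `Φ(y) = y^(-ρ) Hc(y/Y)/ρ`, `K = -Φ'`: `|K(y)| ≤ C y^(-β-1)` on
`[1, 2Y]`, `K = 0` beyond. `∫_1^∞ CC K = Φ(1) - ∑_{n ≤ N} a_n ∑_m λ(m) Φ(n m)` (finite sums, `∫_1^∞ 1_{y ≥ k} K = Φ(k)`), `Φ(1) = 1/ρ`,
and `|∑_m λ(m) m^(-ρ) Hc(n m/Y)| ≤ C_B (Y/n)^(-B) ≤ C_B N^(-B δ')` by `S_VO` (`s = ρ`, `X = Y/n`, `L(ρ) = 0`).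
Coefficients: let `E = nl p σ CC ≤ 1` (otherwise clear); `CC` is constant on `[k,k+1)`, so `|CC(k)| ≤ C k^(σ+1/p)`, and
`a = cc * mu` (`inv`), `∑_{n ≤ N} |a_n| ≤ C N^A` for some `A` (see `Pool/Agent/Q298/GB/Co.lean`). With `B δ' ≥ A + 1` we get
`|∫ CC K| ≥ 1/(2|ρ|)` for `N ≥ N0`. Hoelder, `q` dual to `p`: `|∫ CC K| ≤ E (∫_1^{2Y} |K|^q y^(q(σ+1/p)) dy)^(1/q)` (`p = 1`:
`sup |K| y^(σ+1)`), the integrand is `≤ C y^((σ-β)q-1)`: the factor is `≤ C (2Y)^(σ-β)` if `β < σ` (`δ' (σ-β) ≤ δ`),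
`≤ C log(2Y)^(1/q)` if `β = σ`, `≤ C` if `σ < β`. For `2 ≤ N ≤ N0` put `a' n = if n ≤ N then a n else 0` and use the bound for
`N0` (`CC O N0 a' = CC O N a`). -/
def J_LO : Prop := ∀ (O : LFn) (p σ δ : ℝ), 1 ≤ p → 0 < σ → 0 < δ → ∀ ρ : ℂ, O.L ρ = 0 → 0 < ρ.re →
  ∃ c : ℝ, 0 < c ∧ ∀ (N : ℕ) (a : ℕ → ℂ), 2 ≤ N →
  IntegrableOn (fun y : ℝ => ‖CC O N a y‖ ^ p * y ^ (-(p * σ) - 1)) (Ioi 1) →
  (ρ.re < σ → c * (N : ℝ) ^ (-(σ - ρ.re) - δ) ≤ nl p σ (CC O N a)) ∧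
  (ρ.re = σ → c * Real.log N ^ (-(1 - 1 / p)) ≤ nl p σ (CC O N a)) ∧
  (σ < ρ.re → c ≤ nl p σ (CC O N a))

/-- JOB ZE (0.8 h): a completed L-function has a zero. Proof. Otherwise `X = exp h`, `h` entire, `Re h(z) ≤ log K + δ |z|²` for every
`δ > 0` (`slow`), so `h` is a polynomial of degree at most `1` (Borel-Caratheodory and Cauchy's estimate for the
coefficients; `h(z)/z²` bounded by `C δ` at infinity for every `δ`), `X(s) = exp(u + w s)`. The functional equation gives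
`|X(s)| = |X(1 - conj s)|`, so `Re w = 0` (compare `s = x`, `s = 1 - x` real), so `|X(x)|` is constant for real `x`. -/
def J_ZE : Prop := ∀ O : Obj, Tendsto (fun x : ℝ => ‖O.X x‖) atTop atTop → ∃ s : ℂ, O.X s = 0

/-- JOB GR (0.6 h): growth of the gamma factors on the real axis (`m ≥ 1` factors). Proof. `Γ_ℝ(s) = π^(-s/2) Γ(s/2)`. For every
`R ≥ 1`, `b`: `|Γ(x + ib)| ≥ c R^x` for `x ≥ 1`, by `Γ(s+1) = s Γ(s)`, compactness of `[1,2]` and induction (from `x ≥ R` on every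
step multiplies by at least `R`). So `|gam N μ x| ≥ c 2^x` for `x ≥ x0`, whatever `N > 0` is. -/
def J_GR : Prop := ∀ (m : ℕ) (N : ℝ) (μ : Fin m → ℂ), 0 < m → 0 < N →
  Tendsto (fun x : ℝ => ‖gam N μ x‖) atTop atTop

/-! ## the critical weight -/

/-- JOB DE (1 h): `Pool/Agent/Q211/GB/Dec.lean` (`t_DEC`, the case `m = 16`: abscissa `Λ/16`, range `e^(10 L)`, exponent `3/8`) with
an arbitrary `m ≥ 16` in place of `16`: abscissa `Λ/m`, range `e^((m-6) L)`, exponent `6/m`. Copy and replace the numbers; it is the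
job NC-DEC (`Pool/Agent/Q120/NB/Stm3.lean`) for the class `Obj`. The hypotheses are theorems in `Pool/Agent/Q286/GB/All.lean`. -/
def J_DE : Prop := ∀ O : Obj, RH O.toLFn → ∀ m : ℝ, 16 ≤ m → ∃ β0 : ℝ, 0 < β0 ∧ β0 < 1 ∧ ∀ β : ℝ, β0 < β → β < 1 →
  ∀ φ : ℝ → ℝ, Wt β φ → ∃ C L0 : ℝ, 0 < C ∧ 1 ≤ L0 ∧ ∀ L : ℝ, L0 ≤ L → ∀ t d : ℝ, |t| ≤ Real.exp ((m - 6) * L) →
  0 < d → d ≤ 1 → (∀ g : ℝ, O.L (cl g) = 0 → d ≤ |g - t|) →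
  ‖O.L (cl t) * AA O.toLFn φ L (cl t) - 1‖ ≤ C * (1 + |t|) ^ (6 / m) / (1 + L * d)

/-- JOB LN (0.8 h): under RH `L` is `O((1+|t|)^ε)` a little to the left of the critical line. Proof. On the line by `upl`
(`ML t = o(Lam t)`), on `Re s ≥ 1/2` by `J_GZ`-like Phragmen-Lindelöf between `Re s = 1/2` and `Re s = 2` (`Re s ≥ 2` bounded;
polynomial growth by `grow`), or directly `S_MONO` with the functional equation. For `1/2 - h ≤ Re s < 1/2`, `h < η`: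
`|X(s)| = |X(1 - conj s)|`, so `|L(s)| = |γ(1 - conj s)/γ(s)| |L(1 - conj s)|`, and `|γ'/γ| ≤ C log(|t|+16)` on the segment between
gives `|γ(1 - conj s)/γ(s)| ≤ (|t|+16)^(2 C h)`; choose `h` with `2 C h ≤ ε`. -/
def J_LN : Prop := ∀ O : Obj, RH O.toLFn → ∀ ε : ℝ, 0 < ε → ∃ h C : ℝ, 0 < h ∧ h < 1 / 4 ∧ 0 < C ∧ ∀ s : ℂ,
  1 / 2 - h ≤ s.re → ‖O.L s‖ ≤ C * (1 + |s.im|) ^ ε

/-- JOB CL (0.8 h, uses `J_DE`, `J_LN`): the coefficients. `a_n = μ_L(n) V(log n / log N)` with a weight `φ`, `Wt β φ` (`cost` in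
`Q286/BD/All.lean`, `m = 1`, as in NC-CO; `|V| ≤ ∫ |φ|`), so `∑_{n ≤ N} |a_n| n^(-1/4) ≤ C N²` by `mu_sum`. For `log N < L0` take
`a = 0`. -/
def J_CL : Prop := ∀ O : Obj, RH O.toLFn → ∀ m : ℝ, 16 ≤ m → ∃ h C : ℝ, 0 < h ∧ h < 1 / 4 ∧ 0 < C ∧
  ∀ N : ℕ, 2 ≤ N → ∃ a : ℕ → ℂ,
  (∀ t d : ℝ, |t| ≤ (N : ℝ) ^ (m - 6) → 0 < d → d ≤ 1 → (∀ g : ℝ, O.L (cl g) = 0 → d ≤ |g - t|) →
    ‖1 - O.L (cl t) * ∑ n ∈ Finset.Icc 1 N, a n * (n : ℂ) ^ (-cl t)‖ ≤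
      C * (1 + |t|) ^ (6 / m) / (1 + Real.log N * d)) ∧
  (∀ s : ℂ, 1 / 2 - h ≤ s.re → s.re ≤ 1 →
    ‖1 - O.L s * ∑ n ∈ Finset.Icc 1 N, a n * (n : ℂ) ^ (-s)‖ ≤ C * (N : ℝ) ^ (2 : ℝ) * (1 + |s.im|) ^ (6 / m))

/-- JOB ZG (0.5 h, the same proof as NC-ZI, `Pool/Agent/Q120/NB/Stm3.lean`): integration over the line, for any discrete set `Z` of
ordinates with `O(log)` elements in unit intervals. -/
def J_ZG : Prop := ∀ Z : Set ℝ, (∃ K0 : ℝ, ∀ T : ℝ, (Z ∩ Icc T (T + 1)).Finite ∧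
    ((Z ∩ Icc T (T + 1)).ncard : ℝ) ≤ K0 * Real.log (|T| + 2)) →
  ∀ q κ : ℝ, 1 < q → 0 < κ → 1 < q * (1 - κ) → ∃ C : ℝ, 0 < C ∧ ∀ L : ℝ, 1 / 2 ≤ L → ∀ H : ℝ → ℝ,
  Measurable H → (∀ t, 0 ≤ H t) →
  (∀ t d : ℝ, 0 < d → d ≤ 1 → (∀ g ∈ Z, d ≤ |g - t|) → H t ≤ (1 + |t|) ^ (κ - 1) / (1 + L * d)) →
  Integrable (fun t : ℝ => H t ^ q) ∧ ∫ t : ℝ, H t ^ q ≤ C / L

/-- JOB CU (1 h, uses `J_CL`, `J_ZG`, `J_LP`; `cnt` in `Q286/GB/All.lean`): the critical weight, all `p > 1`, upper bound.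
Proof. `p ≥ 2`: `q = p/(p-1)`, `m` large (depending on `p`), `|FL(cl t)| ≤ C (1+|t|)^(6/m-1)/(1+ log N d)` for `|t| ≤ N^(m-6)`, `J_ZG`
(`κ = 6/m`); the rest `|t| > N^(m-6)` contributes `C N^(2q) ∫ (1+|t|)^(q(6/m-1)) dt ≤ C/log N`. So `∫ |FL|^q ≤ C/log N` (also for `q = 2`) and
`J_LP` gives `∫ |CC|^p y^(-p/2-1) ≤ C (log N)^(-(p-1))`.
`1 ≤ p < 2`, `m = 48`: `∫_1^∞ |CC|² y^(-2) dy ≤ C/log N` (case `p = 2`), and on the line `Re s = 1/2 - h`: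
`|FL| ≤ C N² (1+|t|)^(1/8-1)`, so `∫_1^∞ |CC|² y^(-2(1/2-h)-1) dy ≤ C N^4` by `J_LP` with `p = 2`, `σ = 1/2 - h`. `1 ≤ y ≤ N^A`: Hoelder,
`≤ (∫ |CC|² y^(-2))^(p/2) (A log N)^(1-p/2) ≤ C (log N)^(1-p)`. `y > N^A`, `A` large: Hoelder with the second bound,
`≤ (C N^4)^(p/2) (∫_{N^A}^∞ y^(-1-2hp/(2-p)) dy)^(1-p/2) ≤ C (log N)^(1-p)`. -/
def J_CU : Prop := ∀ O : Obj, RH O.toLFn → ∀ p : ℝ, 1 ≤ p → ∃ C : ℝ, 0 < C ∧ ∀ N : ℕ, 2 ≤ N → ∃ a : ℕ → ℂ,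
  IntegrableOn (fun y : ℝ => ‖CC O.toLFn N a y‖ ^ p * y ^ (-(p * (1 / 2)) - 1)) (Ioi 1) ∧
  nl p (1 / 2) (CC O.toLFn N a) ≤ C * Real.log N ^ (-(1 - 1 / p))

end Pool.Agent.Q120.NL
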