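import Pool.Agent.Q120.NL.AsmB
import Pool.Agent.Q286.GB.All
import Pool.Agent.Q124.NL.GZ
import Pool.Agent.Q124.NL.PE
import Pool.Agent.Q275.NL.HD
import Pool.Agent.Q124.NL.ID
import Pool.Agent.Q277.NL.LP
import Pool.Agent.Q214.NL.UL
import Pool.Agent.Q214.NL.LO
import Pool.Agent.Q176.NL.ZE
import Pool.Agent.Q38.NL.GR
import Pool.Agent.Q238.NL.DE
import Pool.Agent.Q238.NL.LN
import Pool.Agent.Q210.NL.CL
import Pool.Agent.Q195.NL.ZG
import Pool.Agent.Q275.NL.CU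

set_option autoImplicit false

/-! # Project NL: all jobs together -/

namespace Pool.Agent.Q120.NL

open Complex MeasureTheory Filter Topology Set
open scoped ComplexConjugate ENNReal
open Pool.Agent.Q286.GB

theorem gz : J_GZ := Pool.Agent.Q124.NL.t_GZ
theorem pe : J_PE := Pool.Agent.Q124.NL.t_PE gz
theorem lp : J_LP := Pool.Agent.Q277.NL.t_LP Pool.Agent.Q275.NL.HD.t_HD Pool.Agent.Q124.NL.t_ID
theorem ul : J_UL := Pool.Agent.Q214.NL.t_UL gz pe lp
theorem lo : J_LO := Pool.Agent.Q214.NL.t_LO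
theorem ze : J_ZE := Pool.Agent.Q176.NL.t_ZE
theorem gr : J_GR := Pool.Agent.Q38.NL.t_GR
theorem de : J_DE := Pool.Agent.Q238.NL.t_DE ratio lowb upl prh hh
theorem ln : J_LN := Pool.Agent.Q238.NL.t_LN pos far
theorem cl' : J_CL := Pool.Agent.Q210.NL.t_CL de ln
theorem cu : J_CU := Pool.Agent.Q275.NL.CU.t_CU cnt cl' Pool.Agent.Q195.NL.ZG.t_ZG lp

/-- the law for every object with a zero -/
theorem law_all (O : Obj) (hz : ∃ s : ℂ, O.X s = 0) : LpLaw O.lam (RX O.X) := law lo ul cu O hz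

/-- an object with at least one gamma factor has a zero -/
theorem zero_of (O : Obj) {m : ℕ} {N : ℝ} {μ : Fin m → ℂ} {Λ : ℂ → ℂ} (hm : 0 < m) (hN : 0 < N)
    (hre : ∀ j, (μ j).re < 1 / 2) (hL : O.L = LL μ Λ) (hX : O.X = fun s => (N : ℂ) ^ (s / 2) * Λ s) :
    ∃ s : ℂ, O.X s = 0 := by
  refine ze O ?_
  obtain ⟨A, hA, hA1⟩ := Pool.Agent.Q211.GB.L_sub_one O.toLFn
  have h1 : ∀ᶠ x : ℝ in atTop, 1 / 2 ≤ ‖O.L (x : ℂ)‖ := by
    have h2 : Tendsto (fun x : ℝ => A * (2:ℝ) ^ (-(x - 2))) atTop (𝓝 (A * 0)) := by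
      refine Tendsto.const_mul A ?_
      have h3 : Tendsto (fun x : ℝ => (2:ℝ) ^ x) atBot (𝓝 0) :=
        tendsto_rpow_atBot_of_base_gt_one 2 (by norm_num)
      refine h3.comp (tendsto_neg_atTop_atBot.comp ?_)
      exact tendsto_atTop_add_const_right _ (-2) tendsto_id
    rw [mul_zero] at h2
    filter_upwards [h2.eventually_le_const (show (0:ℝ) < 1 / 2 by norm_num), eventually_ge_atTop 2] with x h3 h4
    have h5 := hA1 (x : ℂ) (by simpa using h4)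
    rw [Complex.ofReal_re] at h5
    have h6 : (1:ℝ) = ‖(1:ℂ)‖ := norm_one.symm
    have h7 : ‖(1:ℂ)‖ ≤ ‖O.L (x:ℂ)‖ + ‖O.L (x:ℂ) - 1‖ := by
      have h8 := norm_sub_le (O.L (x:ℂ)) (O.L (x:ℂ) - 1)
      simpa using h8
    rw [norm_one] at h7
    linarith
  have h2 := gr m N μ hm hN
  have h3 : Tendsto (fun x : ℝ => 1 / 2 * ‖gam N μ x‖) atTop atTop := h2.const_mul_atTop (by norm_num)
  refine tendsto_atTop_mono' atTop ?_ h3
  filter_upwards [h1, eventually_ge_atTop (1 / 2)] with x h4 h5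
  have h6 : O.X x = gam N μ x * O.L x := by
    rw [hX, hL]
    unfold gam LL
    have h7 : ∏ j, Gammaℝ ((x:ℂ) - μ j) ≠ 0 := Finset.prod_ne_zero_iff.2 fun j _ =>
      Gammaℝ_ne_zero_of_re_pos (by rw [sub_re, Complex.ofReal_re]; linarith [hre j])
    simp only
    rw [Finset.prod_inv_distrib]
    field_simp
  rw [h6, norm_mul, mul_comm]
  exact mul_le_mul_of_nonneg_left h4 (norm_nonneg _)

/-- translation of the critical line -/
theorem RX_shift {X X' : ℂ → ℂ} {w : ℂ} {k : ℝ} (hw : w ≠ 0) (h : ∀ s : ℂ, X s = w * X' (s + k)) :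
    RX X = {x : ℝ | ∃ s : ℂ, X' s = 0 ∧ s.re = x + k} := by
  ext x
  constructor
  · rintro ⟨s, hs, rfl⟩
    rw [h] at hs
    exact ⟨s + k, (mul_eq_zero.1 hs).resolve_left hw, by simp⟩
  · rintro ⟨s, hs, hs1⟩
    refine ⟨s - k, ?_, by rw [sub_re, Complex.ofReal_re, hs1]; ring⟩
    rw [h, sub_add_cancel, hs, mul_zero]

end Pool.Agent.Q120.NL
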