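import Mathlib

set_option autoImplicit false

/-!
# The Nyman-Beurling problem for a Dirichlet series in all `L^p`

`lam` is the sequence of the coefficients of an L-function in the analytic normalisation (critical line `Re s = 1/2`),
`S(z) = ∑_{j ≤ z} lam j`, and `R ⊆ ℝ` is the set of the real parts of the zeros of the completed L-function.
-/

namespace Pool.Agent.Q120.NL

open MeasureTheory Filter Topology Set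
open scoped ENNReal

/-- The error `1 - ∑_{n ≤ N} a_n S(y/n) = 1 - ∑_{k ≤ y} ∑_{n j = k, n ≤ N} a_n lam(j)`, `S(z) = ∑_{j ≤ z} lam(j)`. -/
noncomputable def eL (lam : ℕ → ℂ) (N : ℕ) (a : ℕ → ℂ) (y : ℝ) : ℂ :=
  1 - ∑ k ∈ Finset.Icc 1 ⌊y⌋₊, ∑ q ∈ k.divisorsAntidiagonal, (if q.1 ≤ N then a q.1 else 0) * lam q.2

/-- The norm `(∫_1^∞ |1 - ∑_{n ≤ N} a_n S(y/n)|^p y^(-pσ-1) dy)^(1/p)`. -/
noncomputable def nE (lam : ℕ → ℂ) (p σ : ℝ) (N : ℕ) (a : ℕ → ℂ) : ℝ≥0∞ :=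
  (∫⁻ y in Ioi (1 : ℝ), ENNReal.ofReal (‖eL lam N a y‖ ^ p * y ^ (-(p * σ) - 1))) ^ (1 / p)

/-- The distance `D_{p,σ}(N)` of the indicator function of `[1, ∞)` to the span of the functions `S(y/n)`, `n ≤ N`. -/
noncomputable def dE (lam : ℕ → ℂ) (p σ : ℝ) (N : ℕ) : ℝ≥0∞ := ⨅ a : ℕ → ℂ, nE lam p σ N a

/-- The laws of the distances `D_{p,σ}(N)`: the exponents for all `1 ≤ p < ∞`, `0 < σ < 1`, and the critical weight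
`σ = 1/2`. -/
structure LpLaw (lam : ℕ → ℂ) (R : Set ℝ) : Prop where
  /-- the supremum `Θ = sSup R` is at least `1/2` -/
  half : R.Nonempty ∧ BddAbove R ∧ 1 / 2 ≤ sSup R
  /-- `D_{p,σ}(N) = N^(-max(0, σ - Θ) + o(1))` -/
  expo : ∀ p σ : ℝ, 1 ≤ p → 0 < σ → σ < 1 → ∀ ε : ℝ, 0 < ε → ∀ᶠ N : ℕ in atTop,
    ENNReal.ofReal ((N : ℝ) ^ (-max 0 (σ - sSup R) - ε)) ≤ dE lam p σ N ∧
    dE lam p σ N ≤ ENNReal.ofReal ((N : ℝ) ^ (-max 0 (σ - sSup R) + ε))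
  /-- the coefficients `mu(n)(1 - n/N)` attain the exponent, `mu` the Dirichlet inverse of `lam` -/
  mob : ∀ mu : ℕ → ℂ, (∀ n : ℕ, 1 ≤ n →
      ∑ q ∈ n.divisorsAntidiagonal, lam q.1 * mu q.2 = if n = 1 then 1 else 0) →
    ∀ p σ : ℝ, 1 ≤ p → sSup R < σ → σ < 1 → ∀ ε : ℝ, 0 < ε → ∀ᶠ N : ℕ in atTop,
    nE lam p σ N (fun n => mu n * (1 - (n : ℂ) / (N : ℂ))) ≤ ENNReal.ofReal ((N : ℝ) ^ (-(σ - sSup R) + ε))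
  /-- the lower bounds given by one zero with real part `x ≥ 1/2` -/
  zero : ∀ x ∈ R, 1 / 2 ≤ x → ∀ p σ : ℝ, 1 ≤ p → 0 < σ → ∃ c : ℝ, 0 < c ∧ ∀ N : ℕ, 2 ≤ N →
    (σ = x → ENNReal.ofReal (c * Real.log N ^ (-(1 - 1 / p))) ≤ dE lam p σ N) ∧
    (σ < x → ENNReal.ofReal c ≤ dE lam p σ N)
  /-- zero-free half-planes -/
  free : ∀ p θ σ : ℝ, 1 ≤ p → 1 / 2 ≤ θ → θ < σ → σ < 1 → List.TFAE [∀ x ∈ R, x ≤ θ,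
    ∀ ε : ℝ, 0 < ε → ∀ᶠ N : ℕ in atTop, dE lam p σ N ≤ ENNReal.ofReal ((N : ℝ) ^ (-(σ - θ) + ε)),
    ∀ ε : ℝ, 0 < ε → ∃ᶠ N : ℕ in atTop, dE lam p σ N ≤ ENNReal.ofReal ((N : ℝ) ^ (-(σ - θ) + ε))]
  /-- the existence of a zero-free half-plane -/
  plane : List.TFAE [∃ θ : ℝ, θ < 1 ∧ ∀ x ∈ R, x ≤ θ,
    ∃ σ δ : ℝ, 0 < σ ∧ σ < 1 ∧ 0 < δ ∧ ∀ p : ℝ, 1 ≤ p → ∀ᶠ N : ℕ in atTop,
      dE lam p σ N ≤ ENNReal.ofReal ((N : ℝ) ^ (-δ)),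
    ∃ p σ δ : ℝ, 1 ≤ p ∧ 0 < σ ∧ σ < 1 ∧ 0 < δ ∧ ∃ᶠ N : ℕ in atTop,
      dE lam p σ N ≤ ENNReal.ofReal ((N : ℝ) ^ (-δ))]
  /-- the critical weight: unconditional lower bound -/
  low : ∀ p : ℝ, 1 ≤ p → ∃ c : ℝ, 0 < c ∧ ∀ N : ℕ, 2 ≤ N →
    ENNReal.ofReal (c * Real.log N ^ (-(1 - 1 / p))) ≤ dE lam p (1 / 2) N
  /-- the critical weight, if the Riemann hypothesis is false -/
  nrh : ¬ (∀ x ∈ R, x = 1 / 2) → ∀ p : ℝ, 1 ≤ p → ∃ c : ℝ, 0 < c ∧ ∀ N : ℕ,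
    ENNReal.ofReal c ≤ dE lam p (1 / 2) N
  /-- the critical weight, exact order -/
  crit : ∀ p : ℝ, 1 < p → List.TFAE [∀ x ∈ R, x = 1 / 2,
    ∃ C : ℝ, 0 < C ∧ ∀ N : ℕ, 2 ≤ N → dE lam p (1 / 2) N ≤ ENNReal.ofReal (C * Real.log N ^ (-(1 - 1 / p))),
    Tendsto (dE lam p (1 / 2)) atTop (𝓝 0)]

end Pool.Agent.Q120.NL
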