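import Pool.Agent.Q120.NL.Stm
import Pool.Agent.Q120.NL.Law
import Pool.Agent.Q286.GB.Glue
import Pool.Agent.Q211.GB.Bas

set_option autoImplicit false

/-! # Project NL: the distances, lower bounds (for the assembly) -/

namespace Pool.Agent.Q120.NL

open Complex MeasureTheory Filter Topology Set
open scoped ComplexConjugate ENNReal
open Pool.Agent.Q286.GB

lemma eL_eq (O : LFn) (N : ℕ) (a : ℕ → ℂ) : eL O.lam N a = CC O N a := rfl

lemma eL_meas (lam : ℕ → ℂ) (N : ℕ) (a : ℕ → ℂ) : Measurable (eL lam N a) := by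
  unfold eL
  refine measurable_const.sub ?_
  exact (measurable_from_nat (f := fun j => ∑ k ∈ Finset.Icc 1 j, ∑ q ∈ k.divisorsAntidiagonal,
    (if q.1 ≤ N then a q.1 else 0) * lam q.2)).comp Nat.measurable_floor

lemma int_meas (lam : ℕ → ℂ) (p σ : ℝ) (N : ℕ) (a : ℕ → ℂ) :
    Measurable (fun y : ℝ => ‖eL lam N a y‖ ^ p * y ^ (-(p * σ) - 1)) :=
  ((eL_meas lam N a).norm.pow_const p).mul (measurable_id.pow_const _)

lemma int_nonneg (lam : ℕ → ℂ) (p σ : ℝ) (N : ℕ) (a : ℕ → ℂ) :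
    ∀ᵐ y ∂(volume.restrict (Ioi (1:ℝ))), 0 ≤ ‖eL lam N a y‖ ^ p * y ^ (-(p * σ) - 1) := by
  filter_upwards [ae_restrict_mem measurableSet_Ioi] with y hy
  have hy : (1:ℝ) < y := hy
  positivity

lemma nE_eq {lam : ℕ → ℂ} {p σ : ℝ} (hp : 0 < p) {N : ℕ} {a : ℕ → ℂ}
    (h : IntegrableOn (fun y : ℝ => ‖eL lam N a y‖ ^ p * y ^ (-(p * σ) - 1)) (Ioi 1)) :
    nE lam p σ N a = ENNReal.ofReal (nl p σ (eL lam N a)) := by
  unfold nE nl
  rw [← ofReal_integral_eq_lintegral_ofReal h (int_nonneg lam p σ N a)]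
  exact ENNReal.ofReal_rpow_of_nonneg (integral_nonneg_of_ae (int_nonneg lam p σ N a)) (by positivity)

lemma nE_top {lam : ℕ → ℂ} {p σ : ℝ} (hp : 0 < p) {N : ℕ} {a : ℕ → ℂ}
    (h : ¬ IntegrableOn (fun y : ℝ => ‖eL lam N a y‖ ^ p * y ^ (-(p * σ) - 1)) (Ioi 1)) :
    nE lam p σ N a = ⊤ := by
  unfold nE
  have h1 : ∫⁻ y in Ioi (1 : ℝ), ENNReal.ofReal (‖eL lam N a y‖ ^ p * y ^ (-(p * σ) - 1)) = ⊤ := by
    by_contra hne
    refine h ⟨(int_meas lam p σ N a).aestronglyMeasurable, ?_⟩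
    rw [hasFiniteIntegral_iff_ofReal (int_nonneg lam p σ N a)]
    exact lt_top_iff_ne_top.2 hne
  rw [h1]
  exact ENNReal.top_rpow_of_pos (by positivity)

/-- lower bounds for the norms give lower bounds for the distance -/
lemma le_dE {lam : ℕ → ℂ} {p σ : ℝ} (hp : 0 < p) {N : ℕ} {x : ℝ}
    (h : ∀ a : ℕ → ℂ, IntegrableOn (fun y : ℝ => ‖eL lam N a y‖ ^ p * y ^ (-(p * σ) - 1)) (Ioi 1) →
      x ≤ nl p σ (eL lam N a)) : ENNReal.ofReal x ≤ dE lam p σ N := by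
  unfold dE
  refine le_iInf fun a => ?_
  by_cases hi : IntegrableOn (fun y : ℝ => ‖eL lam N a y‖ ^ p * y ^ (-(p * σ) - 1)) (Ioi 1)
  · rw [nE_eq hp hi]
    exact ENNReal.ofReal_le_ofReal (h a hi)
  · rw [nE_top hp hi]
    exact le_top

/-- the lower bound for one zero -/
theorem low_zero (hLO : J_LO) (O : LFn) {p σ δ : ℝ} (hp : 1 ≤ p) (hσ : 0 < σ) (hδ : 0 < δ) {ρ : ℂ}
    (hρ : O.L ρ = 0) (h0 : 0 < ρ.re) : ∃ c : ℝ, 0 < c ∧ ∀ N : ℕ, 2 ≤ N →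
      (ρ.re < σ → ENNReal.ofReal (c * (N : ℝ) ^ (-(σ - ρ.re) - δ)) ≤ dE O.lam p σ N) ∧
      (ρ.re = σ → ENNReal.ofReal (c * Real.log N ^ (-(1 - 1 / p))) ≤ dE O.lam p σ N) ∧
      (σ < ρ.re → ENNReal.ofReal c ≤ dE O.lam p σ N) := by
  obtain ⟨c, hc, h⟩ := hLO O p σ δ hp hσ hδ ρ hρ h0
  have hp0 : 0 < p := by linarith
  exact ⟨c, hc, fun N hN => ⟨fun h1 => le_dE hp0 fun a hi => (h N a hN hi).1 h1,
    fun h1 => le_dE hp0 fun a hi => (h N a hN hi).2.1 h1, fun h1 => le_dE hp0 fun a hi => (h N a hN hi).2.2 h1⟩⟩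

/-- more dilations -/
lemma dE_anti (lam : ℕ → ℂ) (p σ : ℝ) {N M : ℕ} (h : N ≤ M) : dE lam p σ M ≤ dE lam p σ N := by
  unfold dE
  refine le_iInf fun a => (iInf_le _ (fun n => if n ≤ N then a n else 0)).trans (le_of_eq ?_)
  unfold nE
  congr 1
  have h1 : ∀ y : ℝ, eL lam M (fun n => if n ≤ N then a n else 0) y = eL lam N a y := by
    intro y
    unfold eL
    congr 1
    refine Finset.sum_congr rfl fun k _ => Finset.sum_congr rfl fun q _ => ?_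
    by_cases h2 : q.1 ≤ N
    · simp [h2, h2.trans h]
    · simp [h2]
  simp only [h1]

/-- no coefficients -/
lemma dE_zero_lt (lam : ℕ → ℂ) {p σ : ℝ} (hp : 1 ≤ p) (hσ : 0 < σ) : ∃ C : ℝ, 0 < C ∧
    ∀ N : ℕ, dE lam p σ N ≤ ENNReal.ofReal C := by
  have hp0 : 0 < p := by linarith
  have h0 : ∀ N : ℕ, ∀ y : ℝ, eL lam N 0 y = 1 := by
    intro N y
    unfold eL
    simp
  have hi : IntegrableOn (fun y : ℝ => y ^ (-(p * σ) - 1)) (Ioi 1) :=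
    integrableOn_Ioi_rpow_of_lt (by nlinarith [mul_pos hp0 hσ]) one_pos
  refine ⟨(∫ y in Ioi (1:ℝ), y ^ (-(p * σ) - 1)) ^ (1 / p) + 1, ?_, fun N => ?_⟩
  · have h1 : 0 ≤ ∫ y in Ioi (1:ℝ), y ^ (-(p * σ) - 1) := by
      refine setIntegral_nonneg measurableSet_Ioi fun y hy => ?_
      have hy : (1:ℝ) < y := hy
      positivity
    positivity
  · refine (iInf_le _ (0 : ℕ → ℂ)).trans ?_
    have h2 : (fun y : ℝ => ‖eL lam N 0 y‖ ^ p * y ^ (-(p * σ) - 1)) = fun y : ℝ => y ^ (-(p * σ) - 1) := by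
      funext y
      rw [h0, norm_one, Real.one_rpow, one_mul]
    rw [nE_eq hp0 (by rw [h2]; exact hi)]
    refine ENNReal.ofReal_le_ofReal ?_
    unfold nl
    rw [h2]
    linarith

/-- the real parts of the zeros of the completed function -/
def RX (X : ℂ → ℂ) : Set ℝ := {x : ℝ | ∃ s : ℂ, X s = 0 ∧ s.re = x}

lemma RX_sym (O : Obj) {x : ℝ} (h : x ∈ RX O.X) : 1 - x ∈ RX O.X := by
  obtain ⟨s, hs, rfl⟩ := h
  obtain ⟨ε, hε, hfe⟩ := O.fe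
  refine ⟨1 - conj s, ?_, by simp⟩
  have h3 := hfe s
  rw [hs] at h3
  have h4 : conj (O.X (1 - conj s)) = 0 := by
    rcases mul_eq_zero.1 h3.symm with h5 | h5
    · exfalso
      rw [h5, norm_zero] at hε
      exact zero_ne_one hε
    · exact h5
  have h6 := congrArg conj h4
  rwa [Complex.conj_conj, map_zero] at h6

lemma RX_le (O : Obj) {x : ℝ} (h : x ∈ RX O.X) : x ≤ 2 := by
  obtain ⟨s, hs, rfl⟩ := h
  by_contra hn
  have hn : 2 < s.re := not_le.mp hn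
  obtain ⟨A, -, hA, -⟩ := Pool.Agent.Q211.GB.L_bd O.toLFn
  have hη := O.η_pos
  exact (hA s hn.le).1 ((L_zero_iff O (by linarith)).2 hs)

lemma RX_bdd (O : Obj) : BddAbove (RX O.X) := ⟨2, fun _ h => RX_le O h⟩

/-- the supremum of the real parts -/
lemma half_le (O : Obj) (hz : ∃ s : ℂ, O.X s = 0) : 1 / 2 ≤ sSup (RX O.X) := by
  obtain ⟨s, hs⟩ := hz
  have h1 : s.re ∈ RX O.X := ⟨s, hs, rfl⟩
  have h2 := le_csSup (RX_bdd O) h1
  have h3 := le_csSup (RX_bdd O) (RX_sym O h1)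
  linarith

/-- no zeros to the right of `θ` -/
lemma zf_iff (O : Obj) {θ : ℝ} (hθ : 1 / 2 ≤ θ) : ZF O.toLFn θ ↔ ∀ x ∈ RX O.X, x ≤ θ := by
  have hη := O.η_pos
  constructor
  · rintro h x ⟨s, hs, rfl⟩
    by_contra hn
    have hn : θ < s.re := not_le.mp hn
    exact h s hn ((L_zero_iff O (by linarith)).2 hs)
  · intro h s hs h0
    have := h s.re ⟨s, (L_zero_iff O (by linarith)).1 h0, rfl⟩
    linarith

lemma zf_sup (O : Obj) (hz : ∃ s : ℂ, O.X s = 0) : ZF O.toLFn (sSup (RX O.X)) :=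
  (zf_iff O (half_le O hz)).2 fun _ hx => le_csSup (RX_bdd O) hx

lemma sup_le_iff (O : Obj) (hz : ∃ s : ℂ, O.X s = 0) {θ : ℝ} : sSup (RX O.X) ≤ θ ↔ ∀ x ∈ RX O.X, x ≤ θ := by
  obtain ⟨s, hs⟩ := hz
  exact csSup_le_iff (RX_bdd O) ⟨s.re, s, hs, rfl⟩

lemma rh_iff_sup (O : Obj) (hz : ∃ s : ℂ, O.X s = 0) : (∀ x ∈ RX O.X, x = 1 / 2) ↔ sSup (RX O.X) ≤ 1 / 2 := by
  rw [sup_le_iff O hz]
  constructor
  · intro h x hx
    exact (h x hx).le
  · intro h x hx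
    have h1 := h x hx
    have h2 := h _ (RX_sym O hx)
    linarith

lemma rh_iff' (O : Obj) : RH O.toLFn ↔ ∀ x ∈ RX O.X, x = 1 / 2 := by
  rw [rh_iff O]
  constructor
  · rintro h x ⟨s, hs, rfl⟩
    exact h s hs
  · intro h s hs
    exact h s.re ⟨s, hs, rfl⟩

/-- a zero with real part close to the supremum -/
lemma exists_near (O : Obj) (hz : ∃ s : ℂ, O.X s = 0) {ε : ℝ} (hε : 0 < ε) : ∃ ρ : ℂ, O.L ρ = 0 ∧ 1 / 2 - ε < ρ.re ∧
    1 / 2 ≤ ρ.re ∧ sSup (RX O.X) - ε < ρ.re := by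
  have hη := O.η_pos
  have hh := half_le O hz
  rcases lt_or_ge (1 / 2) (sSup (RX O.X)) with h | h
  · obtain ⟨s, hs⟩ := hz
    obtain ⟨x, ⟨ρ, hρ, rfl⟩, h2⟩ := exists_lt_of_lt_csSup (s := RX O.X) ⟨s.re, s, hs, rfl⟩
      (show max (1 / 2) (sSup (RX O.X) - ε) < sSup (RX O.X) from max_lt h (by linarith))
    have h3 := (le_max_left _ _).trans_lt h2
    have h4 := (le_max_right _ _).trans_lt h2
    exact ⟨ρ, (L_zero_iff O (by linarith)).2 hρ, by linarith, h3.le, h4⟩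
  · have h1 := (rh_iff_sup O hz).2 h
    obtain ⟨s, hs⟩ := hz
    have h2 := h1 s.re ⟨s, hs, rfl⟩
    exact ⟨s, (L_zero_iff O (by linarith)).2 hs, by linarith, h2.ge, by linarith⟩

end Pool.Agent.Q120.NL
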