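import Pool.Agent.Q120.NL.AsmA

set_option autoImplicit false

/-! # Project NL: the assembly -/

namespace Pool.Agent.Q120.NL

open Complex MeasureTheory Filter Topology Set
open scoped ComplexConjugate ENNReal
open Pool.Agent.Q286.GB

lemma pow_big (C e : ℝ) (he : 0 < e) : ∀ᶠ N : ℕ in atTop, C ≤ (N : ℝ) ^ e :=
  ((tendsto_rpow_atTop he).comp tendsto_natCast_atTop_atTop).eventually_ge_atTop C

lemma pow_small (c e : ℝ) (hc : 0 < c) (he : 0 < e) : ∀ᶠ N : ℕ in atTop, (N : ℝ) ^ (-e) ≤ c :=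
  ((tendsto_rpow_neg_atTop he).comp tendsto_natCast_atTop_atTop).eventually_le_const hc

lemma log_small (c e : ℝ) (hc : 0 < c) (he : 0 < e) :
    ∀ᶠ N : ℕ in atTop, (N : ℝ) ^ (-e) ≤ c * Real.log N ^ (-(1:ℝ)) := by
  have h1 : Tendsto (fun x : ℝ => Real.log x / x ^ e) atTop (𝓝 0) := (isLittleO_log_rpow_atTop he).tendsto_div_nhds_zero
  have h2 := (h1.comp tendsto_natCast_atTop_atTop).eventually_le_const hc
  filter_upwards [h2, eventually_ge_atTop 2] with N h3 hN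
  have hN2 : (2:ℝ) ≤ N := by exact_mod_cast hN
  have hlog : 0 < Real.log N := Real.log_pos (by linarith)
  simp only [Function.comp] at h3
  have hp : 0 < (N:ℝ) ^ e := by positivity
  rw [div_le_iff₀ hp] at h3
  rw [Real.rpow_neg (by linarith), Real.rpow_neg_one, ← div_eq_mul_inv, le_div_iff₀ hlog, ← div_eq_inv_mul,
    div_le_iff₀ hp]
  exact h3

/-- the lower bound -/
theorem dE_lower (hLO : J_LO) (O : Obj) (hz : ∃ s : ℂ, O.X s = 0) {p σ ε : ℝ} (hp : 1 ≤ p) (h0 : 0 < σ) (hε : 0 < ε) :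
    ∀ᶠ N : ℕ in atTop, ENNReal.ofReal ((N : ℝ) ^ (-max 0 (σ - sSup (RX O.X)) - ε)) ≤ dE O.lam p σ N := by
  obtain ⟨ρ, hρ, -, h1, h2⟩ := exists_near O hz (half_pos hε)
  obtain ⟨c, hc, h3⟩ := low_zero hLO O.toLFn hp h0 (δ := ε / 4) (by linarith) hρ (by linarith)
  set m := max 0 (σ - sSup (RX O.X)) with hm
  have hm0 : 0 ≤ m := le_max_left _ _
  have hm2 : σ - sSup (RX O.X) ≤ m := le_max_right _ _
  filter_upwards [eventually_ge_atTop 3, pow_small c (ε / 4) hc (by linarith), log_small c ε hc hε] with N hN g2 g3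
  obtain ⟨k1, k2, k3⟩ := h3 N (by omega)
  have hN3 : (3:ℝ) ≤ N := by exact_mod_cast hN
  have hN1 : (1:ℝ) ≤ N := by linarith
  have hN0 : (0:ℝ) < N := by linarith
  rcases lt_trichotomy ρ.re σ with h | h | h
  · refine le_trans (ENNReal.ofReal_le_ofReal ?_) (k1 h)
    calc (N:ℝ) ^ (-m - ε) ≤ (N:ℝ) ^ (-(ε / 4) + (-(σ - ρ.re) - ε / 4)) :=
          Real.rpow_le_rpow_of_exponent_le hN1 (by linarith)
      _ = (N:ℝ) ^ (-(ε / 4)) * (N:ℝ) ^ (-(σ - ρ.re) - ε / 4) := by rw [Real.rpow_add hN0]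
      _ ≤ c * (N:ℝ) ^ (-(σ - ρ.re) - ε / 4) := by gcongr
  · refine le_trans (ENNReal.ofReal_le_ofReal ?_) (k2 h)
    have g7 : 1 ≤ Real.log N := by
      rw [Real.le_log_iff_exp_le hN0]
      linarith [Real.exp_one_lt_d9]
    calc (N:ℝ) ^ (-m - ε) ≤ (N:ℝ) ^ (-ε) := Real.rpow_le_rpow_of_exponent_le hN1 (by linarith)
      _ ≤ c * Real.log N ^ (-(1:ℝ)) := g3
      _ ≤ c * Real.log N ^ (-(1 - 1 / p)) := by
        refine mul_le_mul_of_nonneg_left (Real.rpow_le_rpow_of_exponent_le g7 ?_) hc.le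
        have : 0 < 1 / p := by positivity
        linarith
  · refine le_trans (ENNReal.ofReal_le_ofReal ?_) (k3 h)
    calc (N:ℝ) ^ (-m - ε) ≤ (N:ℝ) ^ (-(ε / 4)) := Real.rpow_le_rpow_of_exponent_le hN1 (by linarith)
      _ ≤ c := g2

/-- the upper bound for the special coefficients -/
theorem mob_upper (hUL : J_UL) (O : Obj) (hz : ∃ s : ℂ, O.X s = 0) {p σ ε : ℝ} (hp : 1 ≤ p)
    (h0 : sSup (RX O.X) < σ) (h1 : σ < 1) (hε : 0 < ε) :
    ∀ᶠ N : ℕ in atTop, nE O.lam p σ N (fun n => O.mu n * (1 - (n : ℂ) / (N : ℂ))) ≤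
      ENNReal.ofReal ((N : ℝ) ^ (-(σ - sSup (RX O.X)) + ε)) := by
  have hh := half_le O hz
  obtain ⟨C, hC, h2⟩ := hUL O.toLFn (sSup (RX O.X)) (by linarith) (zf_sup O hz) p σ (ε / 2) hp h0 (by linarith)
    (half_pos hε)
  filter_upwards [eventually_ge_atTop 1, pow_big C (ε / 2) (half_pos hε)] with N hN h3
  have hN0 : (0:ℝ) < N := by exact_mod_cast hN
  obtain ⟨h4, h5⟩ := h2 N hN
  have e1 : (fun n : ℕ => O.mu n * (1 - (n : ℂ) / (N : ℂ))) = mobL O.toLFn N := rfl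
  rw [e1, nE_eq (by linarith) h4]
  refine ENNReal.ofReal_le_ofReal ?_
  rw [eL_eq]
  refine h5.trans ?_
  calc C * (N : ℝ) ^ (sSup (RX O.X) - σ + ε / 2) ≤ (N : ℝ) ^ (ε / 2) * (N : ℝ) ^ (sSup (RX O.X) - σ + ε / 2) := by
        gcongr
    _ = (N : ℝ) ^ (-(σ - sSup (RX O.X)) + ε) := by
      rw [← Real.rpow_add hN0]
      congr 1
      ring

/-- the upper bound -/
theorem dE_upper (hUL : J_UL) (O : Obj) (hz : ∃ s : ℂ, O.X s = 0) {p σ ε : ℝ} (hp : 1 ≤ p) (h0 : 0 < σ)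
    (h1 : σ < 1) (hε : 0 < ε) :
    ∀ᶠ N : ℕ in atTop, dE O.lam p σ N ≤ ENNReal.ofReal ((N : ℝ) ^ (-max 0 (σ - sSup (RX O.X)) + ε)) := by
  rcases lt_or_ge (sSup (RX O.X)) σ with h | h
  · filter_upwards [mob_upper hUL O hz hp h h1 hε] with N h2
    rw [max_eq_right (by linarith)]
    exact (iInf_le _ _).trans h2
  · rw [max_eq_left (by linarith)]
    obtain ⟨C, hC, h3⟩ := dE_zero_lt O.lam hp h0
    filter_upwards [pow_big C ε hε] with N h4
    refine (h3 N).trans (ENNReal.ofReal_le_ofReal ?_)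
    rw [show -(0:ℝ) + ε = ε by ring]
    exact h4

/-- zero-free half planes -/
theorem free_tfae (hLO : J_LO) (hUL : J_UL) (O : Obj) (hz : ∃ s : ℂ, O.X s = 0) {p θ σ : ℝ} (hp : 1 ≤ p)
    (hθ : 1 / 2 ≤ θ) (h0 : θ < σ) (h1 : σ < 1) : List.TFAE [∀ x ∈ RX O.X, x ≤ θ,
    ∀ ε : ℝ, 0 < ε → ∀ᶠ N : ℕ in atTop, dE O.lam p σ N ≤ ENNReal.ofReal ((N : ℝ) ^ (-(σ - θ) + ε)),
    ∀ ε : ℝ, 0 < ε → ∃ᶠ N : ℕ in atTop, dE O.lam p σ N ≤ ENNReal.ofReal ((N : ℝ) ^ (-(σ - θ) + ε))] := by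
  have hσ0 : 0 < σ := by linarith
  tfae_have 1 → 2 := by
    intro h ε hε
    have h2 : sSup (RX O.X) ≤ θ := (sup_le_iff O hz).mpr h
    filter_upwards [dE_upper hUL O hz hp hσ0 h1 hε, eventually_ge_atTop 1] with N h3 hN
    refine h3.trans (ENNReal.ofReal_le_ofReal (Real.rpow_le_rpow_of_exponent_le (by exact_mod_cast hN) ?_))
    have := le_max_right 0 (σ - sSup (RX O.X))
    linarith
  tfae_have 2 → 3 := fun h ε hε => (h ε hε).frequently
  tfae_have 3 → 1 := by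
    intro h
    rw [← sup_le_iff O hz]
    by_contra hno
    have hno : θ < sSup (RX O.X) := not_le.mp hno
    set m := max 0 (σ - sSup (RX O.X)) with hm
    have hm1 : m < σ - θ := max_lt (by linarith) (by linarith)
    have hε : 0 < (σ - θ - m) / 4 := by linarith
    obtain ⟨N, h3, h4, h5⟩ := ((h _ hε).and_eventually ((dE_lower hLO O hz hp hσ0 hε).and
      (eventually_gt_atTop 1))).exists
    have h5 : (1:ℝ) < N := by exact_mod_cast h5
    have h7 := h4.trans h3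
    rw [ENNReal.ofReal_le_ofReal_iff (by positivity)] at h7
    have h8 := (Real.rpow_le_rpow_left_iff h5).mp h7
    rw [← hm] at h8
    linarith
  tfae_finish

theorem plane_tfae (hLO : J_LO) (hUL : J_UL) (O : Obj) (hz : ∃ s : ℂ, O.X s = 0) :
    List.TFAE [∃ θ : ℝ, θ < 1 ∧ ∀ x ∈ RX O.X, x ≤ θ,
    ∃ σ δ : ℝ, 0 < σ ∧ σ < 1 ∧ 0 < δ ∧ ∀ p : ℝ, 1 ≤ p → ∀ᶠ N : ℕ in atTop,
      dE O.lam p σ N ≤ ENNReal.ofReal ((N : ℝ) ^ (-δ)),
    ∃ p σ δ : ℝ, 1 ≤ p ∧ 0 < σ ∧ σ < 1 ∧ 0 < δ ∧ ∃ᶠ N : ℕ in atTop,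
      dE O.lam p σ N ≤ ENNReal.ofReal ((N : ℝ) ^ (-δ))] := by
  have hh := half_le O hz
  tfae_have 1 → 2 := by
    rintro ⟨θ, hθ, h⟩
    have h2 : sSup (RX O.X) ≤ θ := (sup_le_iff O hz).mpr h
    set T := sSup (RX O.X) with hT
    refine ⟨(1 + T) / 2, (1 - T) / 4, by linarith, by linarith, by linarith, fun p hp => ?_⟩
    filter_upwards [dE_upper hUL O hz (σ := (1 + T) / 2) hp (by linarith) (by linarith)
      (show 0 < (1 - T) / 4 by linarith), eventually_ge_atTop 1] with N h4 hN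
    refine h4.trans (ENNReal.ofReal_le_ofReal (Real.rpow_le_rpow_of_exponent_le (by exact_mod_cast hN) ?_))
    have := le_max_right 0 ((1 + T) / 2 - sSup (RX O.X))
    linarith
  tfae_have 2 → 3 := by
    rintro ⟨σ, δ, h0, h1, hδ, h⟩
    exact ⟨1, σ, δ, le_rfl, h0, h1, hδ, (h 1 le_rfl).frequently⟩
  tfae_have 3 → 1 := by
    rintro ⟨p, σ, δ, hp, h0, h1, hδ, h⟩
    by_contra hno
    have hno : 1 ≤ sSup (RX O.X) := by
      by_contra h2
      exact hno ⟨sSup (RX O.X), not_le.mp h2, (sup_le_iff O hz).mp le_rfl⟩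
    obtain ⟨N, h3, h4, h5⟩ := (h.and_eventually ((dE_lower hLO O hz hp h0 (half_pos hδ)).and
      (eventually_gt_atTop 1))).exists
    have h5 : (1:ℝ) < N := by exact_mod_cast h5
    have h7 := h4.trans h3
    rw [ENNReal.ofReal_le_ofReal_iff (by positivity)] at h7
    have h8 := (Real.rpow_le_rpow_left_iff h5).mp h7
    rw [max_eq_left (by linarith)] at h8
    linarith
  tfae_finish

/-- one zero -/
theorem zero_low (hLO : J_LO) (O : Obj) {x : ℝ} (hx : x ∈ RX O.X) (hx2 : 1 / 2 ≤ x) {p σ : ℝ} (hp : 1 ≤ p)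
    (hσ : 0 < σ) : ∃ c : ℝ, 0 < c ∧ ∀ N : ℕ, 2 ≤ N →
    (σ = x → ENNReal.ofReal (c * Real.log N ^ (-(1 - 1 / p))) ≤ dE O.lam p σ N) ∧
    (σ < x → ENNReal.ofReal c ≤ dE O.lam p σ N) := by
  have hη := O.η_pos
  obtain ⟨s, hs, rfl⟩ := hx
  obtain ⟨c, hc, h⟩ := low_zero hLO O.toLFn hp hσ one_pos ((L_zero_iff O (by linarith)).2 hs) (by linarith)
  exact ⟨c, hc, fun N hN => ⟨fun h1 => (h N hN).2.1 h1.symm, fun h1 => (h N hN).2.2 h1⟩⟩

theorem nrh_low (hLO : J_LO) (O : Obj) (hz : ∃ s : ℂ, O.X s = 0) (h : ¬ (∀ x ∈ RX O.X, x = 1 / 2)) {p : ℝ}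
    (hp : 1 ≤ p) : ∃ c : ℝ, 0 < c ∧ ∀ N : ℕ, ENNReal.ofReal c ≤ dE O.lam p (1 / 2) N := by
  have h2 : 1 / 2 < sSup (RX O.X) := by
    by_contra hn
    exact h ((rh_iff_sup O hz).mpr (not_lt.mp hn))
  obtain ⟨ρ, hρ, -, h3, h4⟩ := exists_near O hz (show 0 < sSup (RX O.X) - 1 / 2 by linarith)
  obtain ⟨c, hc, h5⟩ := low_zero hLO O.toLFn hp (σ := 1 / 2) (by norm_num) one_pos hρ (by linarith)
  refine ⟨c, hc, fun N => ?_⟩
  have h6 := (h5 (max N 2) (le_max_right _ _)).2.2 (by linarith)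
  exact h6.trans (dE_anti O.lam p (1 / 2) (le_max_left N 2))

theorem crit_low (hLO : J_LO) (O : Obj) (hz : ∃ s : ℂ, O.X s = 0) {p : ℝ} (hp : 1 ≤ p) :
    ∃ c : ℝ, 0 < c ∧ ∀ N : ℕ, 2 ≤ N →
      ENNReal.ofReal (c * Real.log N ^ (-(1 - 1 / p))) ≤ dE O.lam p (1 / 2) N := by
  by_cases hRH : ∀ x ∈ RX O.X, x = 1 / 2
  · obtain ⟨s, hs⟩ := hz
    have h1 := hRH s.re ⟨s, hs, rfl⟩
    obtain ⟨c, hc, h⟩ := zero_low hLO O ⟨s, hs, rfl⟩ h1.ge hp (σ := 1 / 2) (by norm_num)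
    exact ⟨c, hc, fun N hN => (h N hN).1 h1.symm⟩
  · obtain ⟨c, hc, h2⟩ := nrh_low hLO O hz hRH hp
    refine ⟨c / 2, by positivity, fun N hN => le_trans (ENNReal.ofReal_le_ofReal ?_) (h2 N)⟩
    have hN2 : (2:ℝ) ≤ N := by exact_mod_cast hN
    have hlog : 1 / 2 ≤ Real.log N := by
      have h3 := Real.log_le_log (by norm_num) hN2
      have h4 := Real.log_two_gt_d9
      linarith
    have hp0 : 0 < 1 / p := by positivity
    have hp1 : 1 / p ≤ 1 := by rw [div_le_one (by linarith)]; exact hp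
    have h7 : Real.log N ^ (-(1 - 1 / p)) ≤ 2 := by
      calc Real.log N ^ (-(1 - 1 / p)) ≤ (1 / 2 : ℝ) ^ (-(1 - 1 / p)) :=
            Real.rpow_le_rpow_of_nonpos (by norm_num) hlog (by linarith)
        _ ≤ (1 / 2 : ℝ) ^ (-(1:ℝ)) := Real.rpow_le_rpow_of_exponent_ge (by norm_num) (by norm_num) (by linarith)
        _ = 2 := by rw [Real.rpow_neg_one]; norm_num
    calc c / 2 * Real.log N ^ (-(1 - 1 / p)) ≤ c / 2 * 2 := by gcongr
      _ = c := by ring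

theorem crit_tfae (hLO : J_LO) (hCU : J_CU) (O : Obj) (hz : ∃ s : ℂ, O.X s = 0) {p : ℝ} (hp : 1 < p) :
    List.TFAE [∀ x ∈ RX O.X, x = 1 / 2,
    ∃ C : ℝ, 0 < C ∧ ∀ N : ℕ, 2 ≤ N → dE O.lam p (1 / 2) N ≤ ENNReal.ofReal (C * Real.log N ^ (-(1 - 1 / p))),
    Tendsto (dE O.lam p (1 / 2)) atTop (𝓝 0)] := by
  have he : 0 < 1 - 1 / p := by
    have : 1 / p < 1 := by rw [div_lt_one (by linarith)]; exact hp
    linarith
  tfae_have 1 → 2 := by
    intro h
    obtain ⟨C, hC, h2⟩ := hCU O ((rh_iff' O).2 h) p hp.le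
    refine ⟨C, hC, fun N hN => ?_⟩
    obtain ⟨a, ha, h3⟩ := h2 N hN
    refine (iInf_le _ a).trans ?_
    rw [nE_eq (by linarith) ha]
    exact ENNReal.ofReal_le_ofReal h3
  tfae_have 2 → 3 := by
    rintro ⟨C, hC, h⟩
    rw [ENNReal.tendsto_nhds_zero]
    intro ε hε
    by_cases hεt : ε = ⊤
    · subst hεt
      exact Eventually.of_forall fun _ => le_top
    · have h1 : Tendsto (fun x : ℝ => C * Real.log x ^ (-(1 - 1 / p))) atTop (𝓝 (C * 0)) :=
        (((tendsto_rpow_neg_atTop he).comp Real.tendsto_log_atTop)).const_mul C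
      rw [mul_zero] at h1
      have h2 := (h1.comp tendsto_natCast_atTop_atTop).eventually_lt_const (ENNReal.toReal_pos hε.ne' hεt)
      filter_upwards [h2, eventually_ge_atTop 2] with N h3 hN
      simp only [Function.comp] at h3
      refine (h N hN).trans ((ENNReal.ofReal_le_ofReal h3.le).trans ?_)
      rw [ENNReal.ofReal_toReal hεt]
  tfae_have 3 → 1 := by
    intro h
    by_contra hn
    obtain ⟨c, hc, h2⟩ := nrh_low hLO O hz hn hp.le
    have h3 : ∀ᶠ N : ℕ in atTop, dE O.lam p (1 / 2) N < ENNReal.ofReal c :=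
      h.eventually_lt_const (by simpa using hc)
    obtain ⟨N, h4⟩ := h3.exists
    exact absurd ((h2 N).trans_lt h4) (lt_irrefl _)
  tfae_finish

/-- the Dirichlet inverse is unique -/
lemma inv_unique (O : LFn) {mu : ℕ → ℂ} (h : ∀ n : ℕ, 1 ≤ n →
    ∑ q ∈ n.divisorsAntidiagonal, O.lam q.1 * mu q.2 = if n = 1 then 1 else 0) : ∀ n : ℕ, 1 ≤ n → mu n = O.mu n := by
  intro n
  induction n using Nat.strong_induction_on with
  | _ n ih =>
    intro hn
    have h1 := h n hn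
    have h2 := O.inv n hn
    have hmem : (1, n) ∈ n.divisorsAntidiagonal := by
      rw [Nat.mem_divisorsAntidiagonal]
      exact ⟨one_mul n, by omega⟩
    rw [← Finset.add_sum_erase _ _ hmem] at h1 h2
    simp only [O.lam_one, one_mul] at h1 h2
    have h3 : ∑ q ∈ n.divisorsAntidiagonal.erase (1, n), O.lam q.1 * mu q.2 =
        ∑ q ∈ n.divisorsAntidiagonal.erase (1, n), O.lam q.1 * O.mu q.2 := by
      refine Finset.sum_congr rfl fun q hq => ?_
      rw [Finset.mem_erase, Nat.mem_divisorsAntidiagonal] at hq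
      obtain ⟨hq1, hq2, hq3⟩ := hq
      have hq0 : 1 ≤ q.2 := by
        rcases Nat.eq_zero_or_pos q.2 with h4 | h4
        · rw [h4, mul_zero] at hq2
          omega
        · exact h4
      have hlt : q.2 < n := by
        rcases Nat.lt_or_ge q.2 n with h4 | h4
        · exact h4
        · exfalso
          have hq1' : 1 ≤ q.1 := by
            rcases Nat.eq_zero_or_pos q.1 with h5 | h5
            · rw [h5, zero_mul] at hq2
              omega
            · exact h5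
          have h5 : q.1 = 1 := by nlinarith
          have h6 : q.2 = n := by rw [h5, one_mul] at hq2; exact hq2
          exact hq1 (Prod.ext h5 h6)
      rw [ih q.2 hlt hq0]
    rw [h3] at h1
    have h4 := h1.trans h2.symm
    exact add_right_cancel h4

lemma nE_congr (lam : ℕ → ℂ) (p σ : ℝ) (N : ℕ) {a b : ℕ → ℂ} (h : ∀ n : ℕ, 1 ≤ n → a n = b n) :
    nE lam p σ N a = nE lam p σ N b := by
  unfold nE
  have h1 : ∀ y : ℝ, eL lam N a y = eL lam N b y := by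
    intro y
    unfold eL
    congr 1
    refine Finset.sum_congr rfl fun k hk => Finset.sum_congr rfl fun q hq => ?_
    rw [Nat.mem_divisorsAntidiagonal] at hq
    have hq0 : 1 ≤ q.1 := by
      rcases Nat.eq_zero_or_pos q.1 with h4 | h4
      · exfalso
        rw [h4, zero_mul] at hq
        exact hq.2 hq.1.symm
      · exact h4
    rw [h q.1 hq0]
  simp only [h1]

/-- **The abstract theorem.** -/
theorem law (hLO : J_LO) (hUL : J_UL) (hCU : J_CU) (O : Obj) (hz : ∃ s : ℂ, O.X s = 0) :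
    LpLaw O.lam (RX O.X) where
  half := ⟨by obtain ⟨s, hs⟩ := hz; exact ⟨s.re, s, hs, rfl⟩, RX_bdd O, half_le O hz⟩
  expo := fun _ _ hp h0 h1 _ hε => (dE_lower hLO O hz hp h0 hε).and (dE_upper hUL O hz hp h0 h1 hε)
  mob := by
    intro mu hmu p σ hp h0 h1 ε hε
    filter_upwards [mob_upper hUL O hz hp h0 h1 hε] with N h
    rwa [nE_congr O.lam p σ N (b := fun n => O.mu n * (1 - (n : ℂ) / (N : ℂ))) fun n hn => by
      rw [inv_unique O.toLFn hmu n hn]]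
  zero := fun _ hx hx2 _ _ hp hσ => zero_low hLO O hx hx2 hp hσ
  free := fun _ _ _ hp hθ h0 h1 => free_tfae hLO hUL O hz hp hθ h0 h1
  plane := plane_tfae hLO hUL O hz
  low := fun _ hp => crit_low hLO O hz hp
  nrh := fun h _ hp => nrh_low hLO O hz h hp
  crit := fun _ hp => crit_tfae hLO hCU O hz hp

end Pool.Agent.Q120.NL
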